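import Pool.Agent.ALC.CrL
import Pool.Agent.ALC.Defs

/-!
# ALQ: many vertices and many edges: crossing lemma by sampling

Copy of the proof of `Pool.Agent.ALC.rC`: if `n r ≤ 2 #(ed G)`, `n ≥ C r`, then
`M r⁴ ≤ cr` (`C` depends on `M`).
-/

set_option autoImplicit false

namespace Pool.Agent.ALQ

open Pool.Agent.ALB Pool.Agent.ALC

theorem cl {c : ℝ} (hc : Lim c) (M₀ : ℝ) (hM₀ : 0 < M₀) : ∃ C : ℝ, 0 < C ∧ ∃ r₀ : ℕ, 1 ≤ r₀ ∧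
    ∀ (V : Type) (_ : Fintype V) (G : SimpleGraph V) (D : Drw G), D.NoAdj → ∀ r : ℕ, r₀ ≤ r →
      Fintype.card V * r ≤ 2 * (ed G).card → C * (r : ℝ) ≤ (Fintype.card V : ℝ) →
      M₀ * (r : ℝ) ^ 4 ≤ (D.cr : ℝ) := by
  have hc0 : 0 < c := hc.pos
  obtain ⟨a, ha4, hage⟩ := hc.ge (c / 2) (by positivity)
  have ha : crK a ≠ 0 := by
    intro h
    have h1 := hage a le_rfl
    rw [h] at h1
    have h2 : 1 ≤ a.choose 4 := Nat.choose_pos ha4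
    have h3 : (1 : ℝ) ≤ (a.choose 4 : ℝ) := by exact_mod_cast h2
    have h4 : (c - c / 2) * 1 ≤ (c - c / 2) * (a.choose 4 : ℝ) :=
      mul_le_mul_of_nonneg_left h3 (by linarith)
    push_cast at h1
    linarith
  obtain ⟨B, hB, hcrL⟩ := crL ha
  have hBR : (1 : ℝ) ≤ B := by exact_mod_cast hB
  refine ⟨256 * (B : ℝ) ^ 2 * M₀, by positivity, 8 * B, by omega, ?_⟩
  intro V iV G D hNA r hr hdeg' hn
  obtain ⟨n, hnn⟩ : ∃ n : ℕ, n = Fintype.card V := ⟨_, rfl⟩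
  obtain ⟨E, hE⟩ : ∃ E : ℕ, E = (ed G).card := ⟨_, rfl⟩
  obtain ⟨M, hM⟩ : ∃ M : ℕ, M = D.cr := ⟨_, rfl⟩
  have hr1 : 1 ≤ r := by omega
  have hr1R : (1 : ℝ) ≤ r := by exact_mod_cast hr1
  obtain ⟨q, hq⟩ : ∃ q : ℕ, q = r / (4 * B) := ⟨_, rfl⟩
  have hq1 : 4 * B * q ≤ r := by rw [hq]; exact Nat.mul_div_le r (4 * B)
  have hq2 : r ≤ 8 * B * q := by
    have h1 : r < 4 * B * (q + 1) := by
      rw [hq]
      have := Nat.lt_mul_div_succ r (b := 4 * B) (by omega)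
      exact this
    have h2 : 4 * B * (q + 1) = 4 * B * q + 4 * B := by ring
    have h3 : 8 * B * q = 2 * (4 * B * q) := by ring
    omega
  have hq0 : 0 < q := by
    rcases Nat.eq_zero_or_pos q with h | h
    · rw [h] at hq2; omega
    · exact h
  have hcr := hcrL V iV G D hNA q hq0
  rw [← hnn, ← hE, ← hM] at hcr
  rw [← hnn, ← hE] at hdeg'
  rw [← hnn] at hn
  rw [← hM]
  have hq1R : 4 * (B : ℝ) * q ≤ r := by exact_mod_cast hq1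
  have hq2R : (r : ℝ) ≤ 8 * (B : ℝ) * q := by exact_mod_cast hq2
  have hcrR : (q : ℝ) ^ 2 * E ≤ (B : ℝ) * n * (q : ℝ) ^ 3 + M := by exact_mod_cast hcr
  have hdegR : (n : ℝ) * r ≤ 2 * E := by exact_mod_cast hdeg'
  have hn0 : (0 : ℝ) ≤ n := Nat.cast_nonneg n
  have hqR : (0 : ℝ) < q := by exact_mod_cast hq0
  -- the lower bound
  have h1 : (n : ℝ) * (q : ℝ) ^ 2 * (r / 4) ≤ M := by
    have h2 : (q : ℝ) ^ 2 * ((n : ℝ) * r) ≤ (q : ℝ) ^ 2 * (2 * E) :=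
      mul_le_mul_of_nonneg_left hdegR (by positivity)
    have h3 : (n : ℝ) * (q : ℝ) ^ 2 * (4 * (B : ℝ) * q) ≤ (n : ℝ) * (q : ℝ) ^ 2 * r :=
      mul_le_mul_of_nonneg_left hq1R (by positivity)
    nlinarith
  have h2 : (r : ℝ) ^ 2 ≤ 64 * (B : ℝ) ^ 2 * (q : ℝ) ^ 2 := by
    have h3 := pow_le_pow_left₀ (by positivity) hq2R 2
    nlinarith
  have h4 : 256 * (B : ℝ) ^ 2 * ((n : ℝ) * (q : ℝ) ^ 2 * (r / 4)) ≤ 256 * (B : ℝ) ^ 2 * M :=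
    mul_le_mul_of_nonneg_left h1 (by positivity)
  have h5 : (n : ℝ) * r * (r : ℝ) ^ 2 ≤ (n : ℝ) * r * (64 * (B : ℝ) ^ 2 * (q : ℝ) ^ 2) :=
    mul_le_mul_of_nonneg_left h2 (by positivity)
  have h6 : 256 * (B : ℝ) ^ 2 * M₀ * r * (r : ℝ) ^ 3 ≤ (n : ℝ) * (r : ℝ) ^ 3 :=
    mul_le_mul_of_nonneg_right hn (by positivity)
  have h7 : 256 * (B : ℝ) ^ 2 * (M₀ * (r : ℝ) ^ 4) ≤ 256 * (B : ℝ) ^ 2 * M := by
    nlinarith
  exact le_of_mul_le_mul_left h7 (by positivity)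

end Pool.Agent.ALQ
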