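import Pool.Agent.ALQ.Viz

/-!
# ALQ: square root weights of a graph of minimum degree at least `(5/8 + e) n` (Lemma D)

PROOF.  `H` the complement, `E` its number of edges, all degrees of `H` are less than
`m = ⌊(3/8 - e) n⌋`.  The chord of `√(1 - 2 s)` on `[0, 3/8]` gives
`∑ √((2 d(v) - n)/n) ≥ n - (8/3) E/n - 4/3`.  Vizing in the complement: `E ≤ m μ`, `χ(G) ≤ n - μ`.
-/

set_option autoImplicit false

namespace Pool.Agent.ALQ

open Pool.Agent.ALB Pool.Agent.ALC Finset

/-- degree in the complement -/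
private theorem ds_compl_deg {V : Type} [Fintype V] (G : SimpleGraph V) (v : V) :
    {y | Gᶜ.Adj v y}.ncard + 1 + {x | G.Adj v x}.ncard = Fintype.card V := by
  classical
  have h1 : {y | Gᶜ.Adj v y} = ((univ.filter (fun y => Gᶜ.Adj v y) : Finset V) : Set V) := by
    ext y
    simp
  have h1' : {y | G.Adj v y} = ((univ.filter (fun y => G.Adj v y) : Finset V) : Set V) := by
    ext y
    simp
  rw [h1, h1', Set.ncard_coe_finset, Set.ncard_coe_finset]
  have h2 : insert v (univ.filter (fun y => Gᶜ.Adj v y)) ∪ univ.filter (fun y => G.Adj v y) =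
      univ := by
    ext y
    simp only [Finset.mem_union, Finset.mem_insert, Finset.mem_filter, Finset.mem_univ, true_and,
      SimpleGraph.compl_adj, iff_true]
    by_cases hy : y = v
    · exact Or.inl (Or.inl hy)
    · by_cases h : G.Adj v y
      · exact Or.inr h
      · exact Or.inl (Or.inr ⟨Ne.symm hy, h⟩)
  have h3 : Disjoint (insert v (univ.filter (fun y => Gᶜ.Adj v y)))
      (univ.filter (fun y => G.Adj v y)) := by
    rw [Finset.disjoint_left]
    intro y hy hy'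
    simp only [Finset.mem_insert, Finset.mem_filter, Finset.mem_univ, true_and,
      SimpleGraph.compl_adj] at hy hy'
    rcases hy with rfl | hy
    · exact hy'.ne rfl
    · exact hy.2 hy'
  have h4 := Finset.card_union_of_disjoint h3
  rw [h2, Finset.card_univ, Finset.card_insert_of_notMem (by simp)] at h4
  omega

private theorem ds_sum_compl {V : Type} [Fintype V] (G : SimpleGraph V) :
    ∑ v, ({y | Gᶜ.Adj v y}.ncard : ℝ) = 2 * ((ed Gᶜ).card : ℝ) := by
  classical
  have h1 : (ed Gᶜ).card = Gᶜ.edgeFinset.card := by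
    congr 1
    ext e
    simp
  have h2 : ∀ x : V, Gᶜ.degree x = {y | Gᶜ.Adj x y}.ncard := by
    intro x
    rw [← Gᶜ.card_neighborFinset_eq_degree, ← Set.ncard_coe_finset]
    congr 1
    ext y
    simp
  have h4 := Gᶜ.sum_degrees_eq_twice_card_edges
  rw [Finset.sum_congr rfl (fun x _ => h2 x)] at h4
  rw [h1]
  exact_mod_cast h4

/-- **Lemma D**: the square root weights of a graph of minimum degree at least `(5/8 + e) n` -/
theorem dense_sum {e : ℝ} (he : 0 < e) (V : Type) (_ : Fintype V) (G : SimpleGraph V) (q : ℕ)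
    (hd : ∀ v, (5 / 8 + e) * (Fintype.card V : ℝ) ≤ ({x | G.Adj v x}.ncard : ℝ))
    (hq : ¬ G.Colorable q) :
    (q : ℝ) + 2 * e * ((Fintype.card V : ℝ) - q) - 4 ≤
      ∑ v, Real.sqrt ((2 * ({x | G.Adj v x}.ncard : ℝ) - Fintype.card V) / Fintype.card V) := by
  classical
  have hn : 0 < Fintype.card V := by
    rcases Nat.eq_zero_or_pos (Fintype.card V) with h | h
    · exfalso
      have hV := Fintype.card_eq_zero_iff.1 h
      exact hq ⟨SimpleGraph.Coloring.mk (fun x => (hV.false x).elim) fun {x} => (hV.false x).elim⟩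
    · exact h
  have h0 : (0 : ℝ) < Fintype.card V := by exact_mod_cast hn
  obtain ⟨n, hnd⟩ : ∃ n : ℝ, n = Fintype.card V := ⟨_, rfl⟩
  rw [← hnd] at h0 hd
  have hcod : ∀ v : V, ({y | Gᶜ.Adj v y}.ncard : ℝ) + 1 + ({x | G.Adj v x}.ncard : ℝ) = n := by
    intro v
    rw [hnd]
    exact_mod_cast ds_compl_deg G v
  -- Vizing
  have hm : ∀ v, {y | Gᶜ.Adj v y}.ncard < ⌊(3 / 8 - e) * n⌋₊ := by
    intro v
    have h1 := hcod v
    have h2 := hd v
    have h3 : (({y | Gᶜ.Adj v y}.ncard + 1 : ℕ) : ℝ) ≤ (3 / 8 - e) * n := by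
      push_cast
      nlinarith
    have := Nat.le_floor h3
    omega
  obtain ⟨μ, hμ1, hμ2, hμ3⟩ := col_compl G _ hm
  have hμ4 : q + 1 ≤ Fintype.card V - μ := by
    by_contra h
    exact hq (hμ2.mono (by omega))
  have hμ5 : (q : ℝ) + 1 ≤ n - μ := by
    have h1 : q + 1 + μ ≤ Fintype.card V := by omega
    have h2 : ((q + 1 + μ : ℕ) : ℝ) ≤ (Fintype.card V : ℝ) := by exact_mod_cast h1
    push_cast at h2
    rw [hnd]
    linarith
  obtain ⟨v₀⟩ : Nonempty V := Fintype.card_pos_iff.1 hn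
  have he2 : e ≤ 3 / 8 := by
    have h1 := hcod v₀
    have h2 := hd v₀
    have h3 : (0 : ℝ) ≤ ({y | Gᶜ.Adj v₀ y}.ncard : ℝ) := Nat.cast_nonneg _
    by_contra h
    push Not at h
    nlinarith
  have hE : ((ed Gᶜ).card : ℝ) ≤ (3 / 8 - e) * n * μ := by
    have h1 : ((ed Gᶜ).card : ℝ) ≤ (⌊(3 / 8 - e) * n⌋₊ : ℝ) * μ := by exact_mod_cast hμ3
    refine h1.trans (mul_le_mul_of_nonneg_right (Nat.floor_le ?_) (Nat.cast_nonneg _))
    exact mul_nonneg (by linarith) h0.le
  -- the square roots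
  have h1 : ∀ v : V, 1 - 4 / 3 * ((({y | Gᶜ.Adj v y}.ncard : ℝ) + 1) / n) ≤
      Real.sqrt ((2 * ({x | G.Adj v x}.ncard : ℝ) - Fintype.card V) / Fintype.card V) := by
    intro v
    rw [← hnd]
    have h2 := hcod v
    have h3 : (2 * ({x | G.Adj v x}.ncard : ℝ) - n) / n =
        1 - 2 * ((({y | Gᶜ.Adj v y}.ncard : ℝ) + 1) / n) := by
      have h4 : ({x | G.Adj v x}.ncard : ℝ) = n - (({y | Gᶜ.Adj v y}.ncard : ℝ) + 1) := by
        linarith
      rw [h4]
      field_simp
      ring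
    have h5 : (({y | Gᶜ.Adj v y}.ncard : ℝ) + 1) / n ≤ 3 / 8 := by
      rw [div_le_iff₀ h0]
      have := hd v
      nlinarith
    have h6 : 0 ≤ (({y | Gᶜ.Adj v y}.ncard : ℝ) + 1) / n := by positivity
    rw [h3]
    apply Real.le_sqrt_of_sq_le
    nlinarith
  have h2 := Finset.sum_le_sum (fun v (_ : v ∈ (univ : Finset V)) => h1 v)
  refine le_trans ?_ h2
  rw [Finset.sum_sub_distrib, ← Finset.mul_sum, ← Finset.sum_div, Finset.sum_add_distrib,
    ds_sum_compl]
  simp only [Finset.sum_const, Finset.card_univ, nsmul_eq_mul, mul_one]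
  rw [← hnd]
  have h3 : (2 * ((ed Gᶜ).card : ℝ) + n) / n = 2 * (((ed Gᶜ).card : ℝ) / n) + 1 := by
    field_simp
  rw [h3]
  have h4 : ((ed Gᶜ).card : ℝ) / n ≤ (3 / 8 - e) * μ := by
    rw [div_le_iff₀ h0]
    calc ((ed Gᶜ).card : ℝ) ≤ (3 / 8 - e) * n * μ := hE
      _ = _ := by ring
  have h5 : (0 : ℝ) ≤ μ := Nat.cast_nonneg _
  nlinarith [mul_le_mul_of_nonneg_left hμ5 (by linarith : (0 : ℝ) ≤ 3 / 8 - e)]

end Pool.Agent.ALQ
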