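import Pool.Agent.ALQ.SqC
import Pool.Agent.ALQ.Cl
import Pool.Agent.ALB.NoAdj

/-!
# ALQ: the dense inequality

For every `ε > 0`, all large `t` and every finite graph `G` on `n` vertices with
`∑ v, √((2 d(v) - n)_+ / n) ≥ (1 + ε) t` every drawing of `G` has at least `crK t` crossings.
-/

set_option autoImplicit false

namespace Pool.Agent.ALQ

open Pool.Agent.ALB Pool.Agent.ALC Finset

/-- the sum of the weights -/
noncomputable def wS {V : Type} [Fintype V] (G : SimpleGraph V) : ℝ :=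
  ∑ v, Real.sqrt (max 0 (sp G v))

theorem wS_le_card {V : Type} [Fintype V] (G : SimpleGraph V) (hV : 0 < Fintype.card V) :
    wS G ≤ (Fintype.card V : ℝ) := by
  unfold wS
  calc ∑ v, Real.sqrt (max 0 (sp G v)) ≤ ∑ _v : V, (1 : ℝ) := by
        refine Finset.sum_le_sum fun v _ => ?_
        exact Real.sqrt_le_one.2 (max_le zero_le_one (sp_le_one G v hV))
    _ = _ := by simp

theorem wS_le_sx {V : Type} [Fintype V] (G : SimpleGraph V) {θ : ℝ} (hθ : 0 < θ) :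
    wS G ≤ ∑ v, sx G θ v + Real.sqrt θ * (Fintype.card V : ℝ) := by
  unfold wS
  have h1 : ∀ v : V, Real.sqrt (max 0 (sp G v)) ≤ sx G θ v + Real.sqrt θ := by
    intro v
    unfold sx
    split_ifs with h
    · rw [max_eq_right (hθ.le.trans h)]
      have := Real.sqrt_nonneg θ
      linarith
    · rw [zero_add]
      exact Real.sqrt_le_sqrt (max_le hθ.le (not_le.1 h).le)
  calc ∑ v, Real.sqrt (max 0 (sp G v)) ≤ ∑ v, (sx G θ v + Real.sqrt θ) :=
        Finset.sum_le_sum fun v _ => h1 v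
    _ = _ := by
        rw [Finset.sum_add_distrib, Finset.sum_const, Finset.card_univ, nsmul_eq_mul]
        ring

/-- many vertices of degree more than `n/2` give many edges -/
theorem wS_edges {V : Type} [Fintype V] (G : SimpleGraph V) (hV : 0 < Fintype.card V) :
    (Fintype.card V : ℝ) * wS G ≤ 4 * ((ed G).card : ℝ) := by
  classical
  have h0 : (0 : ℝ) < Fintype.card V := by exact_mod_cast hV
  have h1 : (ed G).card = G.edgeFinset.card := by
    congr 1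
    ext e
    simp
  have h2 : ∀ x : V, G.degree x = (N G x).card := by
    intro x
    rw [← G.card_neighborFinset_eq_degree]
    congr 1
    ext y
    simp [N]
  have h3 : ∑ x : V, ((N G x).card : ℝ) = 2 * ((ed G).card : ℝ) := by
    have h4 := G.sum_degrees_eq_twice_card_edges
    rw [Finset.sum_congr rfl (fun x _ => h2 x)] at h4
    rw [h1]
    exact_mod_cast h4
  have h5 : ∀ x : V, (Fintype.card V : ℝ) * Real.sqrt (max 0 (sp G x)) ≤ 2 * ((N G x).card : ℝ) := by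
    intro x
    rcases le_or_gt (sp G x) 0 with h | h
    · rw [max_eq_left h, Real.sqrt_zero, mul_zero]
      positivity
    · have h6 : Real.sqrt (max 0 (sp G x)) ≤ 1 :=
        Real.sqrt_le_one.2 (max_le zero_le_one (sp_le_one G x hV))
      have h7 : (Fintype.card V : ℝ) ≤ 2 * ((N G x).card : ℝ) := by
        unfold sp at h
        rw [div_pos_iff_of_pos_right h0] at h
        linarith
      calc (Fintype.card V : ℝ) * Real.sqrt (max 0 (sp G x)) ≤ (Fintype.card V : ℝ) * 1 :=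
            mul_le_mul_of_nonneg_left h6 h0.le
        _ ≤ _ := by linarith
  unfold wS
  rw [Finset.mul_sum]
  calc _ ≤ ∑ x : V, 2 * ((N G x).card : ℝ) := Finset.sum_le_sum fun x _ => h5 x
    _ = 4 * ((ed G).card : ℝ) := by
        rw [← Finset.mul_sum, h3]
        ring

theorem choose_four_le (t : ℕ) : ((t.choose 4 : ℕ) : ℝ) ≤ (t : ℝ) ^ 4 / 24 := by
  have := Nat.choose_le_pow_div (α := ℝ) 4 t
  have h24 : ((Nat.factorial 4 : ℕ) : ℝ) = 24 := by norm_num [Nat.factorial]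
  rwa [h24] at this

/-- **The dense inequality** for drawings in the sense of `Drw`. -/
theorem dense {ε : ℝ} (hε : 0 < ε) : ∃ t₀ : ℕ, ∀ (V : Type) (_ : Fintype V) (G : SimpleGraph V)
    (D : Drw G) (t : ℕ), t₀ ≤ t → (1 + ε) * (t : ℝ) ≤ wS G → crK t ≤ D.cr := by
  classical
  obtain ⟨c, hc0, hck, hlim⟩ := exists_limit
  rcases hc0.eq_or_lt with hc | hc
  · refine ⟨0, ?_⟩
    intro V _ G D t _ _
    have h1 := hck t
    rw [← hc, zero_mul] at h1
    have h2 : crK t ≤ 0 := by exact_mod_cast h1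
    omega
  have hL : Lim c := ⟨hc, hck, hlim⟩
  obtain ⟨C₀, hC₀, r₀, hr₀, hcl⟩ := cl hL (4 * c) (by positivity)
  obtain ⟨C, hCd⟩ : ∃ C : ℝ, C = max 1 C₀ := ⟨_, rfl⟩
  have hC1 : 1 ≤ C := hCd ▸ le_max_left _ _
  have hCC : C₀ ≤ C := hCd ▸ le_max_right _ _
  have hCpos : 0 < C := by linarith
  obtain ⟨θ, hθd⟩ : ∃ θ : ℝ, θ = (ε / (2 * C)) ^ 2 := ⟨_, rfl⟩
  have hθ : 0 < θ := by rw [hθd]; positivity
  have hsθ : Real.sqrt θ = ε / (2 * C) := by
    rw [hθd]
    exact Real.sqrt_sq (by positivity)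
  obtain ⟨κ, hκd⟩ : ∃ κ : ℝ, κ = 1 / C := ⟨_, rfl⟩
  have hκ : 0 < κ := by rw [hκd]; positivity
  obtain ⟨δ, hδd⟩ : ∃ δ : ℝ, δ = min ε 1 / 8 := ⟨_, rfl⟩
  have hm0 : 0 < min ε 1 := lt_min hε one_pos
  have hδ : 0 < δ := by rw [hδd]; positivity
  have hδε : 8 * δ ≤ ε := by
    rw [hδd]
    have := min_le_left ε 1
    linarith
  have hδ1 : 8 * δ ≤ 1 := by
    rw [hδd]
    have := min_le_right ε 1
    linarith
  obtain ⟨a₀, ha₀, ha⟩ := hlim (c * δ) (by positivity)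
  obtain ⟨B, hB⟩ : ∃ B : ℝ, B = B0 1 κ θ * 1 ^ 4 := ⟨_, rfl⟩
  obtain ⟨a, haD⟩ : ∃ a : ℕ, a = max a₀ (⌈|B| / δ⌉₊ + 4) := ⟨_, rfl⟩
  have ha4 : 4 ≤ a := haD ▸ ha₀.trans (le_max_left _ _)
  have haa : (c - c * δ) * (a.choose 4 : ℝ) ≤ (crK a : ℝ) := ha a (haD ▸ le_max_left _ _)
  have haR : |B| / δ + 4 ≤ (a : ℝ) := by
    have h1 : ⌈|B| / δ⌉₊ + 4 ≤ a := haD ▸ le_max_right _ _
    have h2 : ((⌈|B| / δ⌉₊ : ℕ) : ℝ) + 4 ≤ a := by exact_mod_cast h1
    have h3 := Nat.le_ceil (|B| / δ)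
    linarith
  have ha3 : 0 < (a : ℝ) - 3 := by
    have : 0 ≤ |B| / δ := by positivity
    linarith
  have hBa : B / ((a : ℝ) - 3) ≤ δ := by
    rw [div_le_iff₀ ha3]
    have h1 := le_abs_self B
    have h2 : |B| / δ ≤ (a : ℝ) - 3 := by linarith
    rw [div_le_iff₀ hδ] at h2
    linarith
  obtain ⟨M, hM⟩ : ∃ M : ℝ, M = (a : ℝ) ^ 4 * (2 * 1 / κ + 1 / θ) := ⟨_, rfl⟩
  refine ⟨max (2 * r₀ + 2) ⌈M / δ⌉₊, ?_⟩
  intro V _ G D₀ t ht hS
  have ht1 : 2 * r₀ + 2 ≤ t := (le_max_left _ _).trans ht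
  have htM : M / δ ≤ t := by
    have h1 : ⌈M / δ⌉₊ ≤ t := (le_max_right _ _).trans ht
    have h2 := Nat.le_ceil (M / δ)
    have h3 : ((⌈M / δ⌉₊ : ℕ) : ℝ) ≤ t := by exact_mod_cast h1
    linarith
  obtain ⟨D, hDD, hNA⟩ := exists_noAdj D₀
  refine le_trans ?_ hDD
  have ht0 : (0 : ℝ) < t := by
    have : 0 < t := by omega
    exact_mod_cast this
  have htS : (t : ℝ) ≤ wS G := by nlinarith
  have hV : 0 < Fintype.card V := by
    rcases Nat.eq_zero_or_pos (Fintype.card V) with h | h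
    · exfalso
      haveI : IsEmpty V := Fintype.card_eq_zero_iff.1 h
      have h1 : wS G = 0 := by
        unfold wS
        exact Finset.sum_eq_zero fun v _ => (IsEmpty.false v).elim
      linarith
    · exact h
  have hn0 : (0 : ℝ) < Fintype.card V := by exact_mod_cast hV
  have htn : (t : ℝ) ≤ Fintype.card V := htS.trans (wS_le_card G hV)
  by_cases hbig : C * (t : ℝ) ≤ (Fintype.card V : ℝ)
  · -- crossing lemma
    obtain ⟨r, hr⟩ : ∃ r : ℕ, r = t / 2 := ⟨_, rfl⟩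
    have hr1 : 2 * r ≤ t := by omega
    have hr2 : t ≤ 3 * r := by omega
    have hr3 : r₀ ≤ r := by omega
    have hr1R : 2 * (r : ℝ) ≤ t := by exact_mod_cast hr1
    have hr2R : (t : ℝ) ≤ 3 * r := by exact_mod_cast hr2
    have h1 := wS_edges G hV
    have h2 : Fintype.card V * r ≤ 2 * (ed G).card := by
      have h3 : (Fintype.card V : ℝ) * r ≤ 2 * ((ed G).card : ℝ) := by
        have h4 : (Fintype.card V : ℝ) * (2 * r) ≤ (Fintype.card V : ℝ) * wS G :=
          mul_le_mul_of_nonneg_left (hr1R.trans htS) hn0.le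
        nlinarith
      exact_mod_cast h3
    have h3 : C₀ * (r : ℝ) ≤ (Fintype.card V : ℝ) := by
      have h4 : C₀ * (r : ℝ) ≤ C * (t : ℝ) := by
        refine mul_le_mul hCC ?_ (Nat.cast_nonneg _) hCpos.le
        have : (0 : ℝ) ≤ r := Nat.cast_nonneg _
        linarith
      exact h4.trans hbig
    have h4 := hcl V _ G D hNA r hr3 h2 h3
    have h5 : (crK t : ℝ) ≤ (D.cr : ℝ) := by
      have h6 : (t : ℝ) ^ 4 ≤ (3 * (r : ℝ)) ^ 4 := pow_le_pow_left₀ ht0.le hr2R 4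
      have h7 : (0 : ℝ) ≤ (r : ℝ) ^ 4 := by positivity
      have h8 : (3 * (r : ℝ)) ^ 4 = 81 * (r : ℝ) ^ 4 := by ring
      calc (crK t : ℝ) ≤ c * (t.choose 4 : ℝ) := hck t
        _ ≤ c * ((t : ℝ) ^ 4 / 24) := mul_le_mul_of_nonneg_left (choose_four_le t) hc.le
        _ ≤ c * (4 * (r : ℝ) ^ 4) := by
            refine mul_le_mul_of_nonneg_left ?_ hc.le
            linarith
        _ = 4 * c * (r : ℝ) ^ 4 := by ring
        _ ≤ _ := h4
    exact_mod_cast h5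
  · -- square root cloud
    have hnC : (Fintype.card V : ℝ) ≤ C * t := (not_le.1 hbig).le
    have hx := wS_le_sx G hθ
    obtain ⟨K, hKd⟩ : ∃ K : ℝ, K = ∑ v, sx G θ v := ⟨_, rfl⟩
    have hKt : (1 + ε / 2) * (t : ℝ) ≤ K := by
      have h1 : Real.sqrt θ * (Fintype.card V : ℝ) ≤ ε / 2 * t := by
        rw [hsθ]
        calc ε / (2 * C) * (Fintype.card V : ℝ) ≤ ε / (2 * C) * (C * t) :=
              mul_le_mul_of_nonneg_left hnC (by positivity)
          _ = ε / 2 * t := by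
              field_simp
      rw [hKd]
      linarith
    have hK : κ * (Fintype.card V : ℝ) ≤ ∑ v, sx G θ v := by
      rw [← hKd]
      have h1 : κ * (Fintype.card V : ℝ) ≤ t := by
        rw [hκd]
        calc 1 / C * (Fintype.card V : ℝ) ≤ 1 / C * (C * t) :=
              mul_le_mul_of_nonneg_left hnC (by positivity)
          _ = t := by field_simp
      have h2 : (t : ℝ) ≤ (1 + ε / 2) * t := by nlinarith
      linarith
    have hmix := sq_ineq G D hNA hθ hκ hV hK ha4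
    rw [← hKd, ← hM, ← hB] at hmix
    have hch : 0 < (a.choose 4 : ℝ) := by
      have : 0 < a.choose 4 := Nat.choose_pos ha4
      exact_mod_cast this
    have h1 : (c * (1 - δ)) / 24 ≤ (crK a : ℝ) / (24 * (a.choose 4 : ℝ)) := by
      rw [div_le_div_iff₀ (by norm_num) (by positivity)]
      nlinarith
    have h2 : (1 + ε / 2) ^ 4 * (t : ℝ) ^ 4 ≤ K ^ 4 := by
      rw [← mul_pow]
      exact pow_le_pow_left₀ (by positivity) hKt 4
    have h3 : 1 - δ ≤ 1 - M / (Fintype.card V : ℝ) := by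
      have h4 : M / (Fintype.card V : ℝ) ≤ δ := by
        rw [div_le_iff₀ hn0]
        have h5 : M ≤ δ * t := by
          rw [div_le_iff₀ hδ] at htM
          linarith
        have h6 : δ * (t : ℝ) ≤ δ * (Fintype.card V : ℝ) := mul_le_mul_of_nonneg_left htn hδ.le
        linarith
      linarith
    have hcr0 : (0 : ℝ) ≤ (D.cr : ℝ) := Nat.cast_nonneg _
    have h4 : (1 + B / ((a : ℝ) - 3)) * (D.cr : ℝ) ≤ (1 + δ) * (D.cr : ℝ) :=
      mul_le_mul_of_nonneg_right (by linarith) hcr0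
    have h5 : (c * (1 - δ)) / 24 * ((1 + ε / 2) ^ 4 * (t : ℝ) ^ 4) * (1 - δ) ≤
        (crK a : ℝ) / (24 * (a.choose 4 : ℝ)) * K ^ 4 * (1 - M / (Fintype.card V : ℝ)) := by
      have h6 : 0 ≤ (crK a : ℝ) / (24 * (a.choose 4 : ℝ)) := by positivity
      have h7 : 0 ≤ K ^ 4 := by
        have : 0 ≤ (1 + ε / 2) ^ 4 * (t : ℝ) ^ 4 := by positivity
        linarith
      exact mul_le_mul (mul_le_mul h1 h2 (by positivity) h6) h3 (by linarith)
        (mul_nonneg h6 h7)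
    have h6 : (c * (1 - δ)) / 24 * ((1 + ε / 2) ^ 4 * (t : ℝ) ^ 4) * (1 - δ) ≤
        (1 + δ) * (D.cr : ℝ) := h5.trans (hmix.trans h4)
    have hnum : 1 + δ ≤ (1 + ε / 2) ^ 4 * (1 - δ) ^ 2 := by
      have h7 : 1 + 2 * ε ≤ (1 + ε / 2) ^ 4 := by
        have : (1 + ε / 2) ^ 4 = 1 + 2 * ε + (3 / 2 * ε ^ 2 + ε ^ 3 / 2 + ε ^ 4 / 16) := by ring
        rw [this]
        have : 0 ≤ 3 / 2 * ε ^ 2 + ε ^ 3 / 2 + ε ^ 4 / 16 := by positivity
        linarith
      have h8 : 1 - 2 * δ ≤ (1 - δ) ^ 2 := by nlinarith [sq_nonneg δ]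
      have h9 : (1 + 2 * ε) * (1 - 2 * δ) ≤ (1 + ε / 2) ^ 4 * (1 - δ) ^ 2 :=
        mul_le_mul h7 h8 (by linarith) (by positivity)
      nlinarith
    have h7 : c * (t : ℝ) ^ 4 / 24 ≤ (D.cr : ℝ) := by
      have hp : 0 ≤ c * (t : ℝ) ^ 4 / 24 := by positivity
      have h8 : (1 + δ) * (c * (t : ℝ) ^ 4 / 24) ≤
          (c * (1 - δ)) / 24 * ((1 + ε / 2) ^ 4 * (t : ℝ) ^ 4) * (1 - δ) := by
        have h9 := mul_le_mul_of_nonneg_right hnum hp
        calc _ ≤ _ := h9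
          _ = _ := by ring
      have h10 : (1 + δ) * (c * (t : ℝ) ^ 4 / 24) ≤ (1 + δ) * (D.cr : ℝ) := h8.trans h6
      exact le_of_mul_le_mul_left h10 (by linarith)
    have h9 : (crK t : ℝ) ≤ (D.cr : ℝ) := by
      calc (crK t : ℝ) ≤ c * (t.choose 4 : ℝ) := hck t
        _ ≤ c * ((t : ℝ) ^ 4 / 24) := mul_le_mul_of_nonneg_left (choose_four_le t) hc.le
        _ = c * (t : ℝ) ^ 4 / 24 := by ring
        _ ≤ _ := h7
    exact_mod_cast h9

end Pool.Agent.ALQ
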