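import Pool.Agent.ALB.Cloud
import Pool.Agent.ALB.Lim
import Pool.Agent.ALC.CrL

/-!
# ALQ: the square root cloud of an arbitrary graph (MP_b9e35b_co)

`N G v` is the neighbourhood, `sp G v = (2 d(v) - n)/n` the surplus.  The weights are
`x v = √(sp v)` (zero if `sp v < θ`), non-adjacent terminals are joined through a uniformly chosen
common neighbour.  Then every edge has load at most one.
-/

set_option autoImplicit false

namespace Pool.Agent.ALQ

open Pool.Agent.ALB Finset

variable {V : Type} [Fintype V]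

open Classical in
/-- the neighbourhood -/
noncomputable def N (G : SimpleGraph V) (v : V) : Finset V := univ.filter (fun y => G.Adj v y)

theorem mem_N {G : SimpleGraph V} {v y : V} : y ∈ N G v ↔ G.Adj v y := by
  classical
  simp [N]

/-- the surplus `(2 d(v) - n) / n` -/
noncomputable def sp (G : SimpleGraph V) (v : V) : ℝ :=
  (2 * ((N G v).card : ℝ) - (Fintype.card V : ℝ)) / (Fintype.card V : ℝ)

open Classical in
/-- the weights -/
noncomputable def sx (G : SimpleGraph V) (θ : ℝ) (v : V) : ℝ :=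
  if θ ≤ sp G v then Real.sqrt (sp G v) else 0

theorem N_card_le (G : SimpleGraph V) (v : V) : ((N G v).card : ℝ) ≤ (Fintype.card V : ℝ) := by
  exact_mod_cast Finset.card_le_univ _

theorem sp_le_one (G : SimpleGraph V) (v : V) (hV : 0 < Fintype.card V) : sp G v ≤ 1 := by
  have h0 : (0 : ℝ) < Fintype.card V := by exact_mod_cast hV
  unfold sp
  rw [div_le_one h0]
  have := N_card_le G v
  linarith

open Classical in
theorem inter_ge (G : SimpleGraph V) (u v : V) :
    ((N G u).card : ℝ) + ((N G v).card : ℝ) - (Fintype.card V : ℝ) ≤ ((N G u ∩ N G v).card : ℝ) := by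
  have h1 := Finset.card_union_add_card_inter (N G u) (N G v)
  have h2 : (N G u ∪ N G v).card ≤ Fintype.card V := Finset.card_le_univ _
  have h3 : (N G u).card + (N G v).card ≤ Fintype.card V + (N G u ∩ N G v).card := by omega
  have h4 : ((N G u).card : ℝ) + ((N G v).card : ℝ) ≤
      (Fintype.card V : ℝ) + ((N G u ∩ N G v).card : ℝ) := by exact_mod_cast h3
  linarith

theorem sx_nonneg (G : SimpleGraph V) (θ : ℝ) (v : V) : 0 ≤ sx G θ v := by
  unfold sx
  split_ifs
  · exact Real.sqrt_nonneg _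
  · exact le_rfl

theorem sx_le_one (G : SimpleGraph V) (θ : ℝ) (v : V) (hV : 0 < Fintype.card V) :
    sx G θ v ≤ 1 := by
  unfold sx
  split_ifs
  · exact Real.sqrt_le_one.2 (sp_le_one G v hV)
  · exact zero_le_one

theorem sx_ne {G : SimpleGraph V} {θ : ℝ} (hθ : 0 < θ) {v : V} (h : sx G θ v ≠ 0) :
    θ ≤ sp G v ∧ sx G θ v ^ 2 = sp G v := by
  unfold sx at h ⊢
  split_ifs at h ⊢ with h1
  · exact ⟨h1, Real.sq_sqrt (hθ.le.trans h1)⟩
  · exact absurd rfl h

/-- product of two weights -/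
theorem sx_mul_le {G : SimpleGraph V} {θ : ℝ} (hθ : 0 < θ) (hV : 0 < Fintype.card V) {u v : V}
    (hu : sx G θ u ≠ 0) (hv : sx G θ v ≠ 0) :
    sx G θ u * sx G θ v ≤
      (((N G u).card : ℝ) + ((N G v).card : ℝ) - (Fintype.card V : ℝ)) / (Fintype.card V : ℝ) ∧
    θ * (Fintype.card V : ℝ) ≤
      ((N G u).card : ℝ) + ((N G v).card : ℝ) - (Fintype.card V : ℝ) := by
  have h0 : (0 : ℝ) < Fintype.card V := by exact_mod_cast hV
  obtain ⟨h1, h2⟩ := sx_ne hθ hu
  obtain ⟨h3, h4⟩ := sx_ne hθ hv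
  have h5 : (((N G u).card : ℝ) + ((N G v).card : ℝ) - (Fintype.card V : ℝ)) /
      (Fintype.card V : ℝ) = (sp G u + sp G v) / 2 := by
    unfold sp
    field_simp
    ring
  constructor
  · rw [h5, ← h2, ← h4]
    nlinarith [sq_nonneg (sx G θ u - sx G θ v)]
  · have h6 : θ ≤ (((N G u).card : ℝ) + ((N G v).card : ℝ) - (Fintype.card V : ℝ)) /
        (Fintype.card V : ℝ) := by
      rw [h5]
      linarith
    rwa [le_div_iff₀ h0] at h6

open Classical in
/-- the square root cloud -/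
noncomputable def sqCloud (G : SimpleGraph V) {θ κ : ℝ} (hθ : 0 < θ) (hV : 0 < Fintype.card V)
    (hK : κ * (Fintype.card V : ℝ) ≤ ∑ v, sx G θ v) : Cloud G 1 κ θ where
  x := sx G θ
  R := fun u v => N G u ∩ N G v
  x_nonneg := sx_nonneg G θ
  x_le := fun v => sx_le_one G θ v hV
  K_ge := hK
  R_symm := fun u v => Finset.inter_comm _ _
  R_adj := by
    intro u v w hw
    rw [Finset.mem_inter, mem_N, mem_N] at hw
    exact hw
  R_card := by
    intro u v _ _ hu hv
    exact (sx_mul_le hθ hV hu hv).2.trans (inter_ge G u v)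

open Classical in
theorem half_le (G : SimpleGraph V) {θ κ : ℝ} (hθ : 0 < θ) (hV : 0 < Fintype.card V)
    (hK : κ * (Fintype.card V : ℝ) ≤ ∑ v, sx G θ v) (u w : V) :
    (sqCloud G hθ hV hK).half u w ≤
      (((N G w).card : ℝ) - ((N G u ∩ N G w).card : ℝ)) / (Fintype.card V : ℝ) := by
  have h0 : (0 : ℝ) < Fintype.card V := by exact_mod_cast hV
  unfold Cloud.half
  have h1 : ∀ v ∈ univ.filter (fun v => v ≠ u ∧ ¬ G.Adj u v ∧ w ∈ (sqCloud G hθ hV hK).R u v),
      (sqCloud G hθ hV hK).x u * (sqCloud G hθ hV hK).x v /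
        (((sqCloud G hθ hV hK).R u v).card : ℝ) ≤ 1 / (Fintype.card V : ℝ) := by
    intro v hv
    change sx G θ u * sx G θ v / ((N G u ∩ N G v).card : ℝ) ≤ 1 / (Fintype.card V : ℝ)
    by_cases hu : sx G θ u = 0
    · rw [hu, zero_mul, zero_div]
      positivity
    by_cases hv' : sx G θ v = 0
    · rw [hv', mul_zero, zero_div]
      positivity
    obtain ⟨h2, h3⟩ := sx_mul_le hθ hV hu hv'
    have h4 := inter_ge G u v
    have h5 : 0 < ((N G u ∩ N G v).card : ℝ) := by
      have : 0 < θ * (Fintype.card V : ℝ) := mul_pos hθ h0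
      linarith
    rw [div_le_div_iff₀ h5 h0, one_mul]
    have h6 : sx G θ u * sx G θ v * (Fintype.card V : ℝ) ≤
        ((N G u).card : ℝ) + ((N G v).card : ℝ) - (Fintype.card V : ℝ) := by
      rwa [le_div_iff₀ h0] at h2
    exact h6.trans h4
  refine (Finset.sum_le_card_nsmul _ _ _ h1).trans ?_
  rw [nsmul_eq_mul, mul_one_div]
  refine div_le_div_of_nonneg_right ?_ h0.le
  have h7 : univ.filter (fun v => v ≠ u ∧ ¬ G.Adj u v ∧ w ∈ (sqCloud G hθ hV hK).R u v) ⊆
      N G w \ (N G u ∩ N G w) := by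
    intro v hv
    rw [Finset.mem_filter] at hv
    obtain ⟨-, -, h8, h9⟩ := hv
    change w ∈ N G u ∩ N G v at h9
    rw [Finset.mem_inter, mem_N, mem_N] at h9
    rw [Finset.mem_sdiff, mem_N, Finset.mem_inter, mem_N, mem_N]
    exact ⟨h9.2.symm, fun h => h8 h.1⟩
  have h8 := Finset.card_le_card h7
  have h9 := Finset.card_sdiff_add_card_eq_card (Finset.inter_subset_right (s₁ := N G u) (s₂ := N G w))
  have h10 : ((N G w \ (N G u ∩ N G w)).card : ℝ) + ((N G u ∩ N G w).card : ℝ) = ((N G w).card : ℝ) := by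
    exact_mod_cast h9
  have h11 : ((univ.filter (fun v => v ≠ u ∧ ¬ G.Adj u v ∧
      w ∈ (sqCloud G hθ hV hK).R u v)).card : ℝ) ≤ ((N G w \ (N G u ∩ N G w)).card : ℝ) := by
    exact_mod_cast h8
  linarith

open Classical in
theorem half_zero (G : SimpleGraph V) {θ κ : ℝ} (hθ : 0 < θ) (hV : 0 < Fintype.card V)
    (hK : κ * (Fintype.card V : ℝ) ≤ ∑ v, sx G θ v) (u w : V) (hu : sx G θ u = 0) :
    (sqCloud G hθ hV hK).half u w = 0 := by
  unfold Cloud.half
  refine Finset.sum_eq_zero fun v _ => ?_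
  change sx G θ u * sx G θ v / _ = 0
  rw [hu, zero_mul, zero_div]

/-- every load is at most one -/
theorem load_le (G : SimpleGraph V) {θ κ : ℝ} (hθ : 0 < θ) (hV : 0 < Fintype.card V)
    (hK : κ * (Fintype.card V : ℝ) ≤ ∑ v, sx G θ v) (a b : V) :
    (sqCloud G hθ hV hK).load2 a b ≤ 1 := by
  classical
  have h0 : (0 : ℝ) < Fintype.card V := by exact_mod_cast hV
  unfold Cloud.load2
  change sx G θ a * sx G θ b + _ + _ ≤ 1
  have h1 := half_le G hθ hV hK a b
  have h2 := half_le G hθ hV hK b a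
  have h3 := inter_ge G a b
  have h4 := N_card_le G a
  have h5 := N_card_le G b
  rw [Finset.inter_comm (N G b) (N G a)] at h2
  have hc : (0 : ℝ) ≤ ((N G a ∩ N G b).card : ℝ) := Nat.cast_nonneg _
  by_cases ha : sx G θ a = 0
  · rw [half_zero G hθ hV hK a b ha, ha, zero_mul]
    by_cases hb : sx G θ b = 0
    · rw [half_zero G hθ hV hK b a hb]
      norm_num
    · have h6 : (((N G a).card : ℝ) - ((N G a ∩ N G b).card : ℝ)) / (Fintype.card V : ℝ) ≤ 1 := by
        rw [div_le_one h0]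
        linarith
      linarith
  by_cases hb : sx G θ b = 0
  · rw [half_zero G hθ hV hK b a hb, hb, mul_zero]
    have h6 : (((N G b).card : ℝ) - ((N G a ∩ N G b).card : ℝ)) / (Fintype.card V : ℝ) ≤ 1 := by
      rw [div_le_one h0]
      linarith
    linarith
  · have h6 := (sx_mul_le hθ hV ha hb).1
    have h7 : (((N G a).card : ℝ) + ((N G b).card : ℝ) - (Fintype.card V : ℝ)) / (Fintype.card V : ℝ) +
        (((N G b).card : ℝ) - ((N G a ∩ N G b).card : ℝ)) / (Fintype.card V : ℝ) +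
        (((N G a).card : ℝ) - ((N G a ∩ N G b).card : ℝ)) / (Fintype.card V : ℝ) ≤ 1 := by
      rw [← add_div, ← add_div, div_le_one h0]
      linarith
    linarith

theorem load_nonneg (G : SimpleGraph V) {θ κ : ℝ} (hθ : 0 < θ) (hV : 0 < Fintype.card V)
    (hK : κ * (Fintype.card V : ℝ) ≤ ∑ v, sx G θ v) (a b : V) :
    0 ≤ (sqCloud G hθ hV hK).load2 a b := by
  classical
  have h1 : ∀ u w : V, 0 ≤ (sqCloud G hθ hV hK).half u w := by
    intro u w
    unfold Cloud.half
    refine Finset.sum_nonneg fun v _ => ?_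
    exact div_nonneg (mul_nonneg (sx_nonneg G θ u) (sx_nonneg G θ v)) (Nat.cast_nonneg _)
  have h2 : 0 ≤ sx G θ a * sx G θ b := mul_nonneg (sx_nonneg G θ a) (sx_nonneg G θ b)
  have h3 := h1 a b
  have h4 := h1 b a
  unfold Cloud.load2
  change 0 ≤ sx G θ a * sx G θ b + _ + _
  linarith

/-- the inequality of the square root cloud -/
theorem sq_ineq (G : SimpleGraph V) (D : Drw G) (hD : D.NoAdj) {θ κ : ℝ} (hθ : 0 < θ)
    (hκ : 0 < κ) (hV : 0 < Fintype.card V)
    (hK : κ * (Fintype.card V : ℝ) ≤ ∑ v, sx G θ v) {a : ℕ} (ha : 4 ≤ a) :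
    (crK a : ℝ) / (24 * (a.choose 4 : ℝ)) * (∑ v, sx G θ v) ^ 4 *
        (1 - (a : ℝ) ^ 4 * (2 * 1 / κ + 1 / θ) / (Fintype.card V : ℝ)) ≤
      (1 + B0 1 κ θ * 1 ^ 4 / ((a : ℝ) - 3)) * (D.cr : ℝ) := by
  refine mix_ineq D hD one_pos hκ hθ hV ha (S := Unit) (fun _ => 1) (fun _ => zero_le_one)
    (by simp) (fun _ => sqCloud G hθ hV hK) (∑ v, sx G θ v) (fun _ => rfl) ?_
  intro f hf
  induction f using Sym2.ind with
  | _ u w =>
    simp only [Finset.univ_unique, Finset.sum_singleton, one_mul, Cloud.load_mk]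
    have h1 := load_le G hθ hV hK u w
    have h2 := load_nonneg G hθ hV hK u w
    nlinarith

end Pool.Agent.ALQ
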