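import Pool.Agent.ALC.Vz
import Pool.Agent.ALB.Defs

/-!
# ALQ: colourings from matchings of the complement (Vizing)
-/

set_option autoImplicit false

namespace Pool.Agent.ALQ

open Pool.Agent.ALB Pool.Agent.ALC Finset

/-- a set `M` of pairwise disjoint edges of the complement gives a colouring with
`card V - #M` colours -/
theorem col_of_matching {V : Type} [Fintype V] (G : SimpleGraph V) (M : Finset (Sym2 V))
    (hM : ∀ e ∈ M, e ∈ Gᶜ.edgeSet) (hd : ∀ e ∈ M, ∀ e' ∈ M, ∀ x : V, x ∈ e → x ∈ e' → e = e') :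
    M.card ≤ Fintype.card V ∧ G.Colorable (Fintype.card V - M.card) := by
  classical
  have hout : ∀ e : Sym2 V, e = s((Quot.out e).1, (Quot.out e).2) := by
    intro e
    exact (Quot.out_eq e).symm
  have hm1 : ∀ e : Sym2 V, (Quot.out e).1 ∈ e := fun e => Sym2.out_fst_mem e
  have hm2 : ∀ e : Sym2 V, (Quot.out e).2 ∈ e := fun e => Sym2.out_snd_mem e
  have hne : ∀ e ∈ M, (Quot.out e).1 ≠ (Quot.out e).2 := by
    intro e he
    have h1 := hM e he
    rw [hout e, SimpleGraph.mem_edgeSet] at h1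
    exact h1.ne
  have hinj : Set.InjOn (fun e : Sym2 V => (Quot.out e).2) (M : Set (Sym2 V)) := by
    intro e he e' he' hee
    refine hd e he e' he' (Quot.out e).2 (hm2 e) ?_
    have : (Quot.out e).2 = (Quot.out e').2 := hee
    rw [this]
    exact hm2 e'
  have hcard : (M.image (fun e : Sym2 V => (Quot.out e).2)).card = M.card :=
    Finset.card_image_of_injOn hinj
  have hle : M.card ≤ Fintype.card V := by
    rw [← hcard]
    exact Finset.card_le_univ _
  refine ⟨hle, ?_⟩
  let f : V → V := fun x => if h : ∃ e ∈ M, x ∈ e then (Quot.out (Classical.choose h)).1 else x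
  have hf1 : ∀ x e, e ∈ M → x ∈ e → f x = (Quot.out e).1 := by
    intro x e he hx
    have h : ∃ e ∈ M, x ∈ e := ⟨e, he, hx⟩
    have h1 := Classical.choose_spec h
    have h2 : Classical.choose h = e := hd _ h1.1 e he x h1.2 hx
    simp only [f, dif_pos h, h2]
  have hf2 : ∀ x, (¬ ∃ e ∈ M, x ∈ e) → f x = x := by
    intro x h
    simp only [f, dif_neg h]
  have hfS : ∀ x, f x ∈ (univ \ M.image (fun e : Sym2 V => (Quot.out e).2)) := by
    intro x
    rw [Finset.mem_sdiff]
    refine ⟨Finset.mem_univ _, ?_⟩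
    intro hx
    obtain ⟨e, he, hex⟩ := Finset.mem_image.1 hx
    by_cases h : ∃ e ∈ M, x ∈ e
    · obtain ⟨e', he', hx'⟩ := h
      rw [hf1 x e' he' hx'] at hex
      have h1 : e = e' := hd e he e' he' (Quot.out e).2 (hm2 e) (hex ▸ hm1 e')
      subst h1
      exact hne e he hex.symm
    · rw [hf2 x h] at hex
      exact h ⟨e, he, hex ▸ hm2 e⟩
  have hcol : G.Coloring {x // x ∈ (univ \ M.image (fun e : Sym2 V => (Quot.out e).2))} := by
    refine SimpleGraph.Coloring.mk (fun x => ⟨f x, hfS x⟩) ?_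
    intro x y hxy hfxy
    have h1 : f x = f y := congrArg Subtype.val hfxy
    have h2 : ∀ e ∈ M, x ∈ e → y ∈ e → False := by
      intro e he hx hy
      have h3 : e = s(x, y) := (Sym2.mem_and_mem_iff hxy.ne).1 ⟨hx, hy⟩
      have h4 := hM e he
      rw [h3, SimpleGraph.mem_edgeSet, SimpleGraph.compl_adj] at h4
      exact h4.2 hxy
    by_cases hx : ∃ e ∈ M, x ∈ e
    · obtain ⟨e, he, hxe⟩ := hx
      by_cases hy : ∃ e ∈ M, y ∈ e
      · obtain ⟨e', he', hye⟩ := hy
        rw [hf1 x e he hxe, hf1 y e' he' hye] at h1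
        have h3 : e = e' := hd e he e' he' (Quot.out e).1 (hm1 e) (h1 ▸ hm1 e')
        subst h3
        exact h2 e he hxe hye
      · rw [hf1 x e he hxe, hf2 y hy] at h1
        exact hy ⟨e, he, h1 ▸ hm1 e⟩
    · by_cases hy : ∃ e ∈ M, y ∈ e
      · obtain ⟨e', he', hye⟩ := hy
        rw [hf2 x hx, hf1 y e' he' hye] at h1
        exact hx ⟨e', he', h1 ▸ hm1 e'⟩
      · rw [hf2 x hx, hf2 y hy] at h1
        exact hxy.ne h1
  have h3 := hcol.colorable
  rw [Fintype.card_coe, Finset.card_sdiff_of_subset (Finset.subset_univ _), Finset.card_univ,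
    hcard] at h3
  exact h3

/-- Vizing's theorem in the complement -/
theorem col_compl {V : Type} [Fintype V] (G : SimpleGraph V) (m : ℕ)
    (h : ∀ x, {y | Gᶜ.Adj x y}.ncard < m) :
    ∃ μ : ℕ, μ ≤ Fintype.card V ∧ G.Colorable (Fintype.card V - μ) ∧
      (ed Gᶜ).card ≤ m * μ := by
  classical
  obtain ⟨col, hcol⟩ := vizing Gᶜ m h
  have key : ∀ i : Fin m, ((ed Gᶜ).filter (fun e => col e = i)).card ≤ Fintype.card V ∧
      G.Colorable (Fintype.card V - ((ed Gᶜ).filter (fun e => col e = i)).card) := by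
    intro i
    apply col_of_matching
    · intro e he
      have := (Finset.mem_filter.1 he).1
      simpa [ed] using this
    · intro e he e' he' x hx hx'
      obtain ⟨y, rfl⟩ := Sym2.mem_iff_exists.1 hx
      obtain ⟨z, rfl⟩ := Sym2.mem_iff_exists.1 hx'
      by_contra hne
      have hyz : y ≠ z := fun h => hne (by rw [h])
      have h1 := Finset.mem_filter.1 he
      have h2 := Finset.mem_filter.1 he'
      have h3 : Gᶜ.Adj x y := by simpa [ed] using h1.1
      have h4 : Gᶜ.Adj x z := by simpa [ed] using h2.1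
      exact hcol x y z h3 h4 hyz (h1.2.trans h2.2.symm)
  have hsum : (ed Gᶜ).card = ∑ i : Fin m, ((ed Gᶜ).filter (fun e => col e = i)).card :=
    Finset.card_eq_sum_card_fiberwise (fun e _ => Finset.mem_univ (col e))
  rcases Nat.eq_zero_or_pos m with hm | hm
  · subst hm
    refine ⟨0, Nat.zero_le _, ?_, ?_⟩
    · have hV : IsEmpty V := ⟨fun x => absurd (h x) (Nat.not_lt_zero _)⟩
      exact ⟨SimpleGraph.Coloring.mk (fun x => (hV.false x).elim) fun {x} => (hV.false x).elim⟩
    · rw [hsum]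
      simp
  · by_contra hcon
    push Not at hcon
    have h1 : ∀ i ∈ (univ : Finset (Fin m)), m * ((ed Gᶜ).filter (fun e => col e = i)).card <
        (ed Gᶜ).card := fun i _ => hcon _ (key i).1 (key i).2
    have h2 : ∑ i : Fin m, m * ((ed Gᶜ).filter (fun e => col e = i)).card <
        ∑ _i : Fin m, (ed Gᶜ).card :=
      Finset.sum_lt_sum_of_nonempty ⟨⟨0, hm⟩, Finset.mem_univ _⟩ h1
    rw [← Finset.mul_sum, ← hsum, Finset.sum_const, Finset.card_univ, Fintype.card_fin,
      smul_eq_mul] at h2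
    exact lt_irrefl _ h2

end Pool.Agent.ALQ
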